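import Pool.Agent.N575.PT.Local

/-!
# Subshifts of the plane with only periodic points have bounded periods
-/

namespace Pool.Agent.N575.PT

/-- Nonzero vectors with coordinates at most `k` in absolute value. -/
def Vk (k : ℕ) : Set (ℤ × ℤ) := {v | v ≠ 0 ∧ |v.1| ≤ k ∧ |v.2| ≤ k}

/-- The multiplier. -/
def Nk (k : ℕ) : ℕ := (2 * k ^ 2).factorial

/-- The radius of the windows. -/
def Rk (k : ℕ) : ℕ := 10 * Nk k * (2 * k + 1) ^ 3

theorem Nk_pos (k : ℕ) : 0 < Nk k := Nat.factorial_pos _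

theorem nm_le_of_mem {k : ℕ} {v : ℤ × ℤ} (hv : v ∈ Vk k) : nm v ≤ ((2 * k : ℕ) : ℤ) := by
  obtain ⟨-, h1, h2⟩ := hv
  unfold nm; push_cast; linarith

theorem one_le_of_mem {k : ℕ} {v : ℤ × ℤ} (hv : v ∈ Vk k) : 1 ≤ k := by
  obtain ⟨h0, h1, h2⟩ := hv
  by_contra h
  have hk : k = 0 := by omega
  subst hk
  simp only [Nat.cast_zero, abs_nonpos_iff] at h1 h2
  exact h0 (Prod.ext h1 h2)

theorem dvd_Nk {k : ℕ} {a : ℤ} (ha : a ≠ 0) (h : |a| ≤ 2 * (k : ℤ) ^ 2) : a ∣ (Nk k : ℤ) := by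
  have h1 : a.natAbs ≤ 2 * k ^ 2 := by
    zify
    exact h
  have h2 : a.natAbs ∣ Nk k := Nat.dvd_factorial (Int.natAbs_pos.2 ha) h1
  exact Int.natAbs_dvd.1 (Int.natCast_dvd_natCast.2 h2)

variable {A : Type*}

/-- The window condition. -/
def Win (T : ℤ × ℤ → A) (k : ℕ) (x : ℤ × ℤ) : Prop :=
  ∃ v ∈ Vk k, ∀ q : ℤ × ℤ, |q.1| ≤ Rk k → |q.2| ≤ Rk k → T (x + q + v) = T (x + q)

theorem periodic_of_win {T : ℤ × ℤ → A} {k : ℕ} (h : ∀ x, Win T k x) :
    ∃ u ∈ Vk k, ∀ x, T (x + (Nk k : ℤ) • u) = T x := by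
  refine local_global (F := Vk k) (N := (Nk k : ℤ)) (K := ((2 * k : ℕ) : ℤ)) (R := (Rk k : ℤ))
    (fun v hv => hv.1) (fun v hv => nm_le_of_mem hv) (by exact_mod_cast Nk_pos k) ?_ ?_ ?_ ?_
  · intro u hu v hv huv
    have hk := one_le_of_mem hu
    have hk1 : (1 : ℤ) ≤ k := by exact_mod_cast hk
    have hkk : (k : ℤ) ≤ 2 * (k : ℤ) ^ 2 := by nlinarith
    have hN : (0 : ℤ) < Nk k := by exact_mod_cast Nk_pos k
    -- a nonzero coordinate of v
    have main : ∀ a b : ℤ, a ≠ 0 → |a| ≤ k → |b| ≤ k → a • u = b • v →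
        ∃ c : ℤ, |c| ≤ (Nk k : ℤ) * ((2 * k : ℕ) : ℤ) ∧ (Nk k : ℤ) • u = c • v := by
      intro a b ha hak hbk hab
      obtain ⟨c, hc⟩ := dvd_Nk ha (hak.trans hkk)
      refine ⟨c * b, ?_, ?_⟩
      · have h1 : |c| ≤ Nk k := by
          have e : |a| * |c| = Nk k := by rw [← abs_mul, ← hc, abs_of_pos hN]
          have := Int.one_le_abs ha
          nlinarith [abs_nonneg c]
        rw [abs_mul]
        have := abs_nonneg b
        push_cast
        nlinarith [abs_nonneg c]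
      · rw [hc, mul_comm a c, mul_smul, hab, smul_smul]
    obtain ⟨hu0, hu1, hu2⟩ := hu
    obtain ⟨hv0, hv1, hv2⟩ := hv
    unfold dt at huv
    by_cases h1 : v.1 = 0
    · have h2 : v.2 ≠ 0 := fun h => hv0 (Prod.ext h1 h)
      refine main v.2 u.2 h2 hv2 hu2 ?_
      ext
      · simp only [Prod.smul_fst, smul_eq_mul]; linarith
      · simp only [Prod.smul_snd, smul_eq_mul]; ring
    · refine main v.1 u.1 h1 hv1 hu1 ?_
      ext
      · simp only [Prod.smul_fst, smul_eq_mul]; ring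
      · simp only [Prod.smul_snd, smul_eq_mul]; linarith
  · intro v hv w hw hvw
    refine dvd_Nk hvw ?_
    obtain ⟨-, hv1, hv2⟩ := hv
    obtain ⟨-, hw1, hw2⟩ := hw
    unfold dt
    calc |v.1 * w.2 - v.2 * w.1| ≤ |v.1 * w.2| + |v.2 * w.1| := abs_sub _ _
      _ = |v.1| * |w.2| + |v.2| * |w.1| := by rw [abs_mul, abs_mul]
      _ ≤ k * k + k * k := by
        have := abs_nonneg v.1
        have := abs_nonneg v.2
        have := abs_nonneg w.1
        have := abs_nonneg w.2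
        gcongr
      _ = _ := by ring
  · unfold Rk; push_cast; ring_nf; rfl
  · intro x
    obtain ⟨v, hv, h1⟩ := h x
    refine ⟨v, hv, fun q hq => h1 q ?_ ?_⟩
    · unfold nm at hq; have := abs_nonneg q.2; linarith
    · unfold nm at hq; have := abs_nonneg q.1; linarith

/-- `v` is a period of `T`. -/
def Per (v : ℤ × ℤ) : Set (ℤ × ℤ → A) := {T | ∀ p, T (p + v) = T p}

/-- The periods of the elements of `Z` are bounded. -/
def Unif (Z : Set (ℤ × ℤ → A)) : Prop := ∃ k : ℕ, ∀ T ∈ Z, ∃ v ∈ Vk k, T ∈ Per v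

theorem Vk_mono {k l : ℕ} (h : k ≤ l) : Vk k ⊆ Vk l := by
  rintro v ⟨h0, h1, h2⟩
  have : (k : ℤ) ≤ l := by exact_mod_cast h
  exact ⟨h0, h1.trans this, h2.trans this⟩

theorem smul_mem_Vk {k : ℕ} {u : ℤ × ℤ} (hu : u ∈ Vk k) : (Nk k : ℤ) • u ∈ Vk (Nk k * k) := by
  obtain ⟨h0, h1, h2⟩ := hu
  have hN : (0 : ℤ) < Nk k := by exact_mod_cast Nk_pos k
  refine ⟨smul_ne_zero hN.ne' h0, ?_, ?_⟩
  · rw [Prod.smul_fst, smul_eq_mul, abs_mul, abs_of_pos hN]
    push_cast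
    exact mul_le_mul_of_nonneg_left h1 hN.le
  · rw [Prod.smul_snd, smul_eq_mul, abs_mul, abs_of_pos hN]
    push_cast
    exact mul_le_mul_of_nonneg_left h2 hN.le

theorem unif_of_win {Z : Set (ℤ × ℤ → A)} {k : ℕ} (h : ∀ T ∈ Z, ∀ x, Win T k x) : Unif Z := by
  refine ⟨Nk k * k, fun T hT => ?_⟩
  obtain ⟨u, hu, hper⟩ := periodic_of_win (h T hT)
  exact ⟨_, smul_mem_Vk hu, hper⟩

theorem Vk_finite (k : ℕ) : (Vk k).Finite := by
  refine ((Set.finite_Icc (-(k : ℤ)) k).prod (Set.finite_Icc (-(k : ℤ)) k)).subset ?_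
  rintro v ⟨-, h1, h2⟩
  exact ⟨abs_le.1 h1, abs_le.1 h2⟩

/-- The windows (a finite set of positions). -/
def Box (r : ℕ) : Set (ℤ × ℤ) := {q | |q.1| ≤ r ∧ |q.2| ≤ r}

theorem Box_finite (r : ℕ) : (Box r).Finite := by
  refine ((Set.finite_Icc (-(r : ℤ)) r).prod (Set.finite_Icc (-(r : ℤ)) r)).subset ?_
  rintro v ⟨h1, h2⟩
  exact ⟨abs_le.1 h1, abs_le.1 h2⟩

variable [TopologicalSpace A] [DiscreteTopology A]

theorem isClosed_ne (p q : ℤ × ℤ) : IsClosed {T : ℤ × ℤ → A | T p ≠ T q} := by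
  have h : Continuous fun T : ℤ × ℤ → A => (T p, T q) :=
    (continuous_apply p).prodMk (continuous_apply q)
  exact (isClosed_discrete {x : A × A | x.1 ≠ x.2}).preimage h

theorem isClosed_eq' (p q : ℤ × ℤ) : IsClosed {T : ℤ × ℤ → A | T p = T q} := by
  have h : Continuous fun T : ℤ × ℤ → A => (T p, T q) :=
    (continuous_apply p).prodMk (continuous_apply q)
  exact (isClosed_discrete {x : A × A | x.1 = x.2}).preimage h

theorem isClosed_Per (v : ℤ × ℤ) : IsClosed (Per v : Set (ℤ × ℤ → A)) := by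
  have : (Per v : Set (ℤ × ℤ → A)) = ⋂ p, {T | T (p + v) = T p} := by
    ext T; simp [Per]
  rw [this]
  exact isClosed_iInter fun p => isClosed_eq' _ _

theorem isClosed_bad (k : ℕ) : IsClosed {T : ℤ × ℤ → A | ¬ Win T k 0} := by
  have : {T : ℤ × ℤ → A | ¬ Win T k 0} =
      ⋂ v ∈ Vk k, ⋃ q ∈ Box (Rk k), {T | T (0 + q + v) ≠ T (0 + q)} := by
    ext T
    simp only [Win, Set.mem_ofPred_eq, not_exists, not_and, not_forall, Set.mem_iInter,
      Set.mem_iUnion, exists_prop, Box]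
    constructor
    · intro h v hv
      obtain ⟨q, h1, h2, h3⟩ := h v hv
      exact ⟨q, ⟨h1, h2⟩, h3⟩
    · intro h v hv
      obtain ⟨q, ⟨h1, h2⟩, h3⟩ := h v hv
      exact ⟨q, h1, h2, h3⟩
  rw [this]
  refine isClosed_biInter fun v _ => ?_
  exact (Box_finite _).isClosed_biUnion fun q _ => isClosed_ne _ _

theorem continuous_shift (g : ℤ × ℤ) :
    Continuous fun T : ℤ × ℤ → A => fun p => T (p + g) :=
  continuous_pi fun p => continuous_apply (p + g)

/-- A compact shift-invariant set of configurations of the plane all of whose elements are periodic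
has bounded periods. -/
theorem unif_of_periodic {X : Set (ℤ × ℤ → A)} (hX : IsCompact X)
    (hsh : ∀ T ∈ X, ∀ g : ℤ × ℤ, (fun p => T (p + g)) ∈ X)
    (hper : ∀ T ∈ X, ∃ v : ℤ × ℤ, v ≠ 0 ∧ T ∈ Per v) : Unif X := by
  by_contra hbad
  have hXc : IsClosed X := hX.isClosed
  let B : Set (Set (ℤ × ℤ → A)) := {Z | Z ⊆ X ∧ IsClosed Z ∧
    (∀ T ∈ Z, ∀ g : ℤ × ℤ, (fun p => T (p + g)) ∈ Z) ∧ ¬ Unif Z}
  have hXB : X ∈ B := ⟨subset_rfl, hXc, hsh, hbad⟩
  obtain ⟨Z, hZ⟩ := zorn_superset B (by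
    intro c hc hchain
    rcases c.eq_empty_or_nonempty with rfl | hne
    · exact ⟨X, hXB, by simp⟩
    refine ⟨⋂₀ c, ⟨?_, ?_, ?_, ?_⟩, fun s hs => Set.sInter_subset_of_mem hs⟩
    · obtain ⟨Z, hZ⟩ := hne
      exact (Set.sInter_subset_of_mem hZ).trans (hc hZ).1
    · exact isClosed_sInter fun Z hZ => (hc hZ).2.1
    · intro T hT g
      rw [Set.mem_sInter] at hT ⊢
      intro Z hZ
      exact (hc hZ).2.2.1 T (hT Z hZ) g
    · rintro ⟨k, hk⟩
      -- some member of the chain avoids the bad windows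
      have : ∃ Z ∈ c, Z ∩ {T : ℤ × ℤ → A | ¬ Win T k 0} = ∅ := by
        by_contra hno
        push Not at hno
        have : Nonempty c := hne.to_subtype
        have hdir : Directed (· ⊇ ·) fun Z : c => Z.1 ∩ {T : ℤ × ℤ → A | ¬ Win T k 0} := by
          intro Z Z'
          rcases hchain.total Z.2 Z'.2 with h | h
          · exact ⟨Z, subset_rfl, Set.inter_subset_inter_left _ h⟩
          · exact ⟨Z', Set.inter_subset_inter_left _ h, subset_rfl⟩
        obtain ⟨T, hT⟩ := IsCompact.nonempty_iInter_of_directed_nonempty_isCompact_isClosed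
          (fun Z : c => Z.1 ∩ {T : ℤ × ℤ → A | ¬ Win T k 0}) hdir
          (fun Z => hno Z.1 Z.2)
          (fun Z => (hX.of_isClosed_subset (hc Z.2).2.1 (hc Z.2).1).inter_right (isClosed_bad k))
          (fun Z => (hc Z.2).2.1.inter (isClosed_bad k))
        rw [Set.mem_iInter] at hT
        have hTI : T ∈ ⋂₀ c := by
          rw [Set.mem_sInter]
          exact fun Z hZ => (hT ⟨Z, hZ⟩).1
        obtain ⟨v, hv, hTv⟩ := hk T hTI
        obtain ⟨Z, hZ⟩ := hne
        exact (hT ⟨Z, hZ⟩).2 ⟨v, hv, fun q _ _ => hTv _⟩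
      obtain ⟨Z, hZ, hemp⟩ := this
      refine (hc hZ).2.2.2 (unif_of_win (k := k) fun T hT x => ?_)
      have h1 := (hc hZ).2.2.1 T hT x
      by_contra hw
      have : (fun p => T (p + x)) ∈ Z ∩ {T : ℤ × ℤ → A | ¬ Win T k 0} := by
        refine ⟨h1, fun hw' => hw ?_⟩
        obtain ⟨v, hv, h2⟩ := hw'
        refine ⟨v, hv, fun q hq1 hq2 => ?_⟩
        have := h2 q hq1 hq2
        simp only at this
        have e1 : 0 + q + v + x = x + q + v := by abel
        have e2 : 0 + q + x = x + q := by abel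
        rw [e1, e2] at this
        exact this
      rw [hemp] at this
      exact this)
  obtain ⟨⟨hZX, hZc, hZs, hZu⟩, hmin⟩ := hZ
  have hZne : Z.Nonempty := by
    rw [Set.nonempty_iff_ne_empty]
    rintro rfl
    exact hZu ⟨0, fun T hT => hT.elim⟩
  have hZcomp : IsCompact Z := hX.of_isClosed_subset hZc hZX
  have : CompactSpace Z := isCompact_iff_compactSpace.1 hZcomp
  have : Nonempty Z := hZne.to_subtype
  obtain ⟨⟨v, hv⟩, hint⟩ := nonempty_interior_of_iUnion_of_closed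
    (f := fun v : {v : ℤ × ℤ // v ≠ 0} => {T : Z | T.1 ∈ Per v.1})
    (fun v => (isClosed_Per v.1).preimage continuous_subtype_val)
    (by
      ext T
      simp only [Set.mem_iUnion, Set.mem_ofPred_eq, Set.mem_univ, iff_true]
      obtain ⟨v, hv, h⟩ := hper T.1 (hZX T.2)
      exact ⟨⟨v, hv⟩, h⟩)
  obtain ⟨T0, hT0⟩ := hint
  obtain ⟨W, hW1, hW2, hW3⟩ := mem_interior.1 hT0
  obtain ⟨U, hU, rfl⟩ := isOpen_induced_iff.1 hW2
  let Z' : Set (ℤ × ℤ → A) := {T ∈ Z | ∀ g : ℤ × ℤ, (fun p => T (p + g)) ∉ U}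
  have hZ'Z : Z' ⊆ Z := fun T hT => hT.1
  have hZ'c : IsClosed Z' := by
    have : Z' = Z ∩ ⋂ g : ℤ × ℤ, (fun T : ℤ × ℤ → A => fun p => T (p + g)) ⁻¹' Uᶜ := by
      ext T
      simp [Z']
    rw [this]
    exact hZc.inter (isClosed_iInter fun g => hU.isClosed_compl.preimage (continuous_shift g))
  have hZ's : ∀ T ∈ Z', ∀ g : ℤ × ℤ, (fun p => T (p + g)) ∈ Z' := by
    rintro T ⟨h1, h2⟩ g
    refine ⟨hZs T h1 g, fun g' => ?_⟩
    have := h2 (g' + g)
    have e : (fun p : ℤ × ℤ => (fun p => T (p + g)) (p + g')) = fun p => T (p + (g' + g)) := by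
      funext p
      simp only [add_assoc]
    rw [e]
    exact this
  have hne : T0.1 ∉ Z' := by
    intro h
    have := h.2 0
    simp only [add_zero] at this
    exact this hW3
  have hZ'u : Unif Z' := by
    by_contra hnu
    have := hmin (y := Z') ⟨hZ'Z.trans hZX, hZ'c, hZ's, hnu⟩ hZ'Z
    exact hne (this T0.2)
  obtain ⟨k, hk⟩ := hZ'u
  apply hZu
  refine ⟨max k (max v.1.natAbs v.2.natAbs), fun T hT => ?_⟩
  by_cases hTZ : T ∈ Z'
  · obtain ⟨w, hw, h⟩ := hk T hTZ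
    exact ⟨w, Vk_mono (le_max_left _ _) hw, h⟩
  · have : ∃ g : ℤ × ℤ, (fun p => T (p + g)) ∈ U := by
      by_contra hno
      push Not at hno
      exact hTZ ⟨hT, hno⟩
    obtain ⟨g, hg⟩ := this
    refine ⟨v, ⟨hv, ?_, ?_⟩, ?_⟩
    · push_cast
      rw [Int.abs_eq_natAbs]
      exact_mod_cast (le_max_left _ _).trans (le_max_right _ _)
    · push_cast
      rw [Int.abs_eq_natAbs]
      exact_mod_cast (le_max_right _ _).trans (le_max_right _ _)
    · have h1 : (⟨_, hZs T hT g⟩ : Z) ∈ {T : Z | T.1 ∈ Per v} := hW1 hg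
      have h2 : ∀ p, T (p + v + g) = T (p + g) := h1
      intro p
      have := h2 (p - g)
      have e1 : p - g + v + g = p + v := by abel
      have e2 : p - g + g = p := by abel
      rw [e1, e2] at this
      exact this

end Pool.Agent.N575.PT
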