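import Pool.Agent.N575.PT.Defs
import Pool.Agent.N575.PT.Unif

/-!
# All tilings being periodic is recursively enumerable
-/

namespace Pool.Agent.N575.PT

open Primrec

/-- All words of length `k` over `S`. -/
def words (S : List Tile) : ℕ → List (List Tile)
  | 0 => [[]]
  | k + 1 => (words S k).flatMap fun w => S.map fun t => t :: w

theorem mem_words {S : List Tile} {k : ℕ} {w : List Tile} :
    w ∈ words S k ↔ w.length = k ∧ ∀ t ∈ w, t ∈ S := by
  induction k generalizing w with
  | zero =>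
    rw [words, List.mem_singleton]
    constructor
    · rintro rfl; simp
    · rintro ⟨h, -⟩; exact List.length_eq_zero_iff.1 h
  | succ k ih =>
    rw [words]
    simp only [List.mem_flatMap, List.mem_map]
    constructor
    · rintro ⟨w', hw', t, ht, rfl⟩
      obtain ⟨h1, h2⟩ := ih.1 hw'
      refine ⟨by rw [List.length_cons, h1], fun s hs => ?_⟩
      rcases List.mem_cons.1 hs with rfl | hs
      · exact ht
      · exact h2 s hs
    · rintro ⟨h1, h2⟩
      cases w with
      | nil => simp at h1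
      | cons t w =>
        refine ⟨w, ih.2 ⟨by simpa using h1, fun s hs => h2 s (List.mem_cons_of_mem _ hs)⟩, t,
          h2 t List.mem_cons_self, rfl⟩

/-- The cell `(i, j)` of a square pattern of side `m`. -/
def cell (m : ℕ) (w : List Tile) (i j : ℕ) : Tile := w.getD (i * m + j) (0, 0, 0, 0)

/-- The matching conditions inside a square pattern. -/
def Valid (m : ℕ) (w : List Tile) : Prop :=
  ∀ i < m, ∀ j < m, (i + 1 < m → right (cell m w i j) = left (cell m w (i + 1) j)) ∧
    (j + 1 < m → top (cell m w i j) = bottom (cell m w i (j + 1)))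

/-- The window of a square pattern has a period. -/
def GoodWin (k n m : ℕ) (w : List Tile) : Prop :=
  ∃ a < 2 * k + 1, ∃ b < 2 * k + 1, ¬ (a = k ∧ b = k) ∧
    ∀ i < 2 * Rk k + 1, ∀ j < 2 * Rk k + 1,
      cell m w (n + i + a) (n + j + b) = cell m w (n + i + k) (n + j + k)

/-- half of the side of the squares -/
def off (k n : ℕ) : ℕ := n + Rk k + k

def Q (S : List Tile) (k n : ℕ) : Prop :=
  ∀ w ∈ words S ((2 * off k n + 1) * (2 * off k n + 1)), Valid (2 * off k n + 1) w →
    GoodWin k n (2 * off k n + 1) w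

def NoPat (S : List Tile) (n : ℕ) : Prop :=
  ∀ w ∈ words S ((2 * n + 1) * (2 * n + 1)), ¬ Valid (2 * n + 1) w

/-- The pattern of a configuration around a point. -/
def pat (T : ℤ × ℤ → Tile) (x : ℤ × ℤ) (o : ℕ) : List Tile :=
  (List.range ((2 * o + 1) * (2 * o + 1))).map fun l =>
    T (x + ((l / (2 * o + 1) : ℕ) - (o : ℤ), (l % (2 * o + 1) : ℕ) - (o : ℤ)))

theorem cell_pat (T : ℤ × ℤ → Tile) (x : ℤ × ℤ) (o : ℕ) {i j : ℕ} (hi : i < 2 * o + 1)
    (hj : j < 2 * o + 1) :
    cell (2 * o + 1) (pat T x o) i j = T (x + ((i : ℤ) - o, (j : ℤ) - o)) := by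
  have h : i * (2 * o + 1) + j < (2 * o + 1) * (2 * o + 1) := by nlinarith
  have h1 : (i * (2 * o + 1) + j) / (2 * o + 1) = i := by
    rw [Nat.mul_comm, Nat.mul_add_div (by omega), Nat.div_eq_of_lt hj, add_zero]
  have h2 : (i * (2 * o + 1) + j) % (2 * o + 1) = j := by
    rw [Nat.mul_comm, Nat.mul_add_mod, Nat.mod_eq_of_lt hj]
  unfold cell pat
  rw [List.getD_eq_getElem _ _ (by simpa using h), List.getElem_map, List.getElem_range, h1, h2]

theorem pat_mem {S : List Tile} {T : ℤ × ℤ → Tile} (hT : ∀ p, T p ∈ S) (x : ℤ × ℤ) (o : ℕ) :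
    pat T x o ∈ words S ((2 * o + 1) * (2 * o + 1)) := by
  rw [mem_words]
  refine ⟨by simp [pat], fun t ht => ?_⟩
  obtain ⟨l, -, rfl⟩ := List.mem_map.1 ht
  exact hT _

theorem valid_pat {S : List Tile} {T : ℤ × ℤ → Tile} (hT : IsTiling S T) (x : ℤ × ℤ) (o : ℕ) :
    Valid (2 * o + 1) (pat T x o) := by
  intro i hi j hj
  refine ⟨fun hi' => ?_, fun hj' => ?_⟩
  · rw [cell_pat T x o hi hj, cell_pat T x o hi' hj]
    have := hT.2.1 (x.1 + ((i : ℤ) - o)) (x.2 + ((j : ℤ) - o))
    have e1 : x + ((i : ℤ) - o, (j : ℤ) - o) = (x.1 + ((i : ℤ) - o), x.2 + ((j : ℤ) - o)) := rfl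
    have e2 : x + (((i + 1 : ℕ) : ℤ) - o, (j : ℤ) - o) =
        (x.1 + ((i : ℤ) - o) + 1, x.2 + ((j : ℤ) - o)) := by
      ext
      · simp only [Prod.fst_add]; push_cast; ring
      · simp only [Prod.snd_add]
    rw [e1, e2]; exact this
  · rw [cell_pat T x o hi hj, cell_pat T x o hi hj']
    have := hT.2.2 (x.1 + ((i : ℤ) - o)) (x.2 + ((j : ℤ) - o))
    have e1 : x + ((i : ℤ) - o, (j : ℤ) - o) = (x.1 + ((i : ℤ) - o), x.2 + ((j : ℤ) - o)) := rfl
    have e2 : x + ((i : ℤ) - o, ((j + 1 : ℕ) : ℤ) - o) =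
        (x.1 + ((i : ℤ) - o), x.2 + ((j : ℤ) - o) + 1) := by
      ext
      · simp only [Prod.fst_add]
      · simp only [Prod.snd_add]; push_cast; ring
    rw [e1, e2]; exact this

/-- Soundness. -/
theorem periodic_of_Q {S : List Tile} {k n : ℕ} (hQ : Q S k n) {T : ℤ × ℤ → Tile}
    (hT : IsTiling S T) : Periodic T := by
  have hwin : ∀ x, Win T k x := by
    intro x
    obtain ⟨a, ha, b, hb, hab, h⟩ := hQ _ (pat_mem hT.1 x (off k n)) (valid_pat hT x _)
    refine ⟨((a : ℤ) - k, (b : ℤ) - k), ⟨?_, ?_, ?_⟩, ?_⟩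
    · intro h0
      rw [Prod.ext_iff] at h0
      simp only [Prod.fst_zero, Prod.snd_zero] at h0
      exact hab ⟨by omega, by omega⟩
    · rw [abs_le]; constructor <;> simp only <;> omega
    · rw [abs_le]; constructor <;> simp only <;> omega
    · intro q hq1 hq2
      rw [abs_le] at hq1 hq2
      obtain ⟨i, hi⟩ := Int.eq_ofNat_of_zero_le (by omega : 0 ≤ q.1 + Rk k)
      obtain ⟨j, hj⟩ := Int.eq_ofNat_of_zero_le (by omega : 0 ≤ q.2 + Rk k)
      have hi' : i < 2 * Rk k + 1 := by omega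
      have hj' : j < 2 * Rk k + 1 := by omega
      have h1 := h i hi' j hj'
      have hoff : off k n = n + Rk k + k := rfl
      rw [cell_pat T x _ (by omega) (by omega), cell_pat T x _ (by omega) (by omega)] at h1
      have e1 : x + q + ((a : ℤ) - k, (b : ℤ) - k) =
          x + (((n + i + a : ℕ) : ℤ) - off k n, ((n + j + b : ℕ) : ℤ) - off k n) := by
        ext
        · simp only [Prod.fst_add]; push_cast; rw [hoff]; push_cast; omega
        · simp only [Prod.snd_add]; push_cast; rw [hoff]; push_cast; omega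
      have e2 : x + q =
          x + (((n + i + k : ℕ) : ℤ) - off k n, ((n + j + k : ℕ) : ℤ) - off k n) := by
        ext
        · simp only [Prod.fst_add]; push_cast; rw [hoff]; push_cast; omega
        · simp only [Prod.snd_add]; push_cast; rw [hoff]; push_cast; omega
      rw [e1, h1, e2]
  obtain ⟨u, hu, hper⟩ := periodic_of_win hwin
  exact ⟨_, (smul_mem_Vk hu).1, hper⟩

theorem isClosed_memS (S : List Tile) (p : ℤ × ℤ) :
    IsClosed {T : ℤ × ℤ → Tile | T p ∈ S} := by
  have h : Continuous fun T : ℤ × ℤ → Tile => T p := continuous_apply p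
  exact (isClosed_discrete {t : Tile | t ∈ S}).preimage h

theorem isClosed_isTiling (S : List Tile) : IsClosed {T : ℤ × ℤ → Tile | IsTiling S T} := by
  have : {T : ℤ × ℤ → Tile | IsTiling S T} = (⋂ p, {T | T p ∈ S}) ∩
      (⋂ x : ℤ, ⋂ y : ℤ, {T | right (T (x, y)) = left (T (x + 1, y))}) ∩
      ⋂ x : ℤ, ⋂ y : ℤ, {T | top (T (x, y)) = bottom (T (x, y + 1))} := by
    ext T
    simp only [IsTiling, Set.mem_ofPred_eq, Set.mem_inter_iff, Set.mem_iInter, and_assoc]
  rw [this]
  refine ((isClosed_iInter fun p => ?_).inter (isClosed_iInter fun x => isClosed_iInter fun y =>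
    ?_)).inter (isClosed_iInter fun x => isClosed_iInter fun y => ?_)
  · exact isClosed_memS S p
  · have h : Continuous fun T : ℤ × ℤ → Tile => (T (x, y), T (x + 1, y)) :=
      (continuous_apply _).prodMk (continuous_apply _)
    exact (isClosed_discrete {z : Tile × Tile | right z.1 = left z.2}).preimage h
  · have h : Continuous fun T : ℤ × ℤ → Tile => (T (x, y), T (x, y + 1)) :=
      (continuous_apply _).prodMk (continuous_apply _)
    exact (isClosed_discrete {z : Tile × Tile | top z.1 = bottom z.2}).preimage h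

theorem isCompact_pi_mem (S : List Tile) : IsCompact {T : ℤ × ℤ → Tile | ∀ p, T p ∈ S} := by
  have : {T : ℤ × ℤ → Tile | ∀ p, T p ∈ S} = Set.pi Set.univ fun _ => {t : Tile | t ∈ S} := by
    ext T; simp
  rw [this]
  exact isCompact_univ_pi fun _ => (List.finite_toSet S).isCompact

theorem isCompact_isTiling (S : List Tile) : IsCompact {T : ℤ × ℤ → Tile | IsTiling S T} :=
  (isCompact_pi_mem S).of_isClosed_subset (isClosed_isTiling S) fun _ hT => hT.1

theorem shift_isTiling {S : List Tile} {T : ℤ × ℤ → Tile} (hT : IsTiling S T) (g : ℤ × ℤ) :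
    IsTiling S fun p => T (p + g) := by
  refine ⟨fun p => hT.1 _, fun x y => ?_, fun x y => ?_⟩
  · have := hT.2.1 (x + g.1) (y + g.2)
    have e : x + g.1 + 1 = x + 1 + g.1 := by ring
    rw [e] at this
    exact this
  · have := hT.2.2 (x + g.1) (y + g.2)
    have e : y + g.2 + 1 = y + 1 + g.2 := by ring
    rw [e] at this
    exact this

/-- partial tilings: the matching conditions hold in the square of radius `n` -/
def ParT (S : List Tile) (n : ℕ) : Set (ℤ × ℤ → Tile) :=
  {T | (∀ p, T p ∈ S) ∧ (∀ x y : ℤ, -(n : ℤ) ≤ x → x < n → -(n : ℤ) ≤ y → y ≤ n →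
      right (T (x, y)) = left (T (x + 1, y))) ∧
    ∀ x y : ℤ, -(n : ℤ) ≤ x → x ≤ n → -(n : ℤ) ≤ y → y < n →
      top (T (x, y)) = bottom (T (x, y + 1))}

theorem isClosed_ParT (S : List Tile) (n : ℕ) : IsClosed (ParT S n) := by
  have : ParT S n = (⋂ p, {T | T p ∈ S}) ∩
      (⋂ x : ℤ, ⋂ y : ℤ, ⋂ _ : -(n : ℤ) ≤ x, ⋂ _ : x < n, ⋂ _ : -(n : ℤ) ≤ y, ⋂ _ : y ≤ n,
        {T | right (T (x, y)) = left (T (x + 1, y))}) ∩
      ⋂ x : ℤ, ⋂ y : ℤ, ⋂ _ : -(n : ℤ) ≤ x, ⋂ _ : x ≤ n, ⋂ _ : -(n : ℤ) ≤ y, ⋂ _ : y < n,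
        {T | top (T (x, y)) = bottom (T (x, y + 1))} := by
    ext T
    simp only [ParT, Set.mem_ofPred_eq, Set.mem_inter_iff, Set.mem_iInter, and_assoc]
  rw [this]
  refine ((isClosed_iInter fun p => ?_).inter (isClosed_iInter fun x => isClosed_iInter fun y =>
    isClosed_iInter fun _ => isClosed_iInter fun _ => isClosed_iInter fun _ =>
    isClosed_iInter fun _ => ?_)).inter (isClosed_iInter fun x => isClosed_iInter fun y =>
    isClosed_iInter fun _ => isClosed_iInter fun _ => isClosed_iInter fun _ =>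
    isClosed_iInter fun _ => ?_)
  · exact isClosed_memS S p
  · have h : Continuous fun T : ℤ × ℤ → Tile => (T (x, y), T (x + 1, y)) :=
      (continuous_apply _).prodMk (continuous_apply _)
    exact (isClosed_discrete {z : Tile × Tile | right z.1 = left z.2}).preimage h
  · have h : Continuous fun T : ℤ × ℤ → Tile => (T (x, y), T (x, y + 1)) :=
      (continuous_apply _).prodMk (continuous_apply _)
    exact (isClosed_discrete {z : Tile × Tile | top z.1 = bottom z.2}).preimage h

theorem ParT_anti (S : List Tile) {n n' : ℕ} (h : n ≤ n') : ParT S n' ⊆ ParT S n := by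
  rintro T ⟨h1, h2, h3⟩
  have hc : (n : ℤ) ≤ n' := by exact_mod_cast h
  refine ⟨h1, fun x y a b c d => h2 x y (by omega) (by omega) (by omega) (by omega),
    fun x y a b c d => h3 x y (by omega) (by omega) (by omega) (by omega)⟩

theorem isTiling_of_ParT {S : List Tile} {T : ℤ × ℤ → Tile} (h : ∀ n, T ∈ ParT S n) :
    IsTiling S T := by
  refine ⟨(h 0).1, fun x y => ?_, fun x y => ?_⟩
  · refine (h (x.natAbs + y.natAbs + 1)).2.1 x y ?_ ?_ ?_ ?_ <;> omega
  · refine (h (x.natAbs + y.natAbs + 1)).2.2 x y ?_ ?_ ?_ ?_ <;> omega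

/-- The configuration given by a square pattern, with some tile outside. -/
noncomputable def unpat (o : ℕ) (w : List Tile) (d : Tile) : ℤ × ℤ → Tile := fun p =>
  if -(o : ℤ) ≤ p.1 ∧ p.1 ≤ o ∧ -(o : ℤ) ≤ p.2 ∧ p.2 ≤ o then
    cell (2 * o + 1) w (p.1 + o).toNat (p.2 + o).toNat else d

theorem unpat_eq {o : ℕ} {w : List Tile} {d : Tile} {x y : ℤ} (h1 : -(o : ℤ) ≤ x) (h2 : x ≤ o)
    (h3 : -(o : ℤ) ≤ y) (h4 : y ≤ o) :
    unpat o w d (x, y) = cell (2 * o + 1) w (x + o).toNat (y + o).toNat := by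
  unfold unpat
  rw [if_pos ⟨h1, h2, h3, h4⟩]

theorem cell_mem {S : List Tile} {m : ℕ} {w : List Tile} (hw : w ∈ words S (m * m)) {i j : ℕ}
    (hi : i < m) (hj : j < m) : cell m w i j ∈ S := by
  obtain ⟨h1, h2⟩ := mem_words.1 hw
  have h : i * m + j < m * m := by nlinarith
  unfold cell
  rw [List.getD_eq_getElem _ _ (by rw [h1]; exact h)]
  exact h2 _ (List.getElem_mem _)

theorem unpat_mem {S : List Tile} {o n : ℕ} (hn : n ≤ o) {w : List Tile}
    (hw : w ∈ words S ((2 * o + 1) * (2 * o + 1))) (hv : Valid (2 * o + 1) w) :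
    unpat o w (cell (2 * o + 1) w 0 0) ∈ ParT S n := by
  have hc : (n : ℤ) ≤ o := by exact_mod_cast hn
  refine ⟨fun p => ?_, fun x y h1 h2 h3 h4 => ?_, fun x y h1 h2 h3 h4 => ?_⟩
  · unfold unpat
    split_ifs with h
    · exact cell_mem hw (by omega) (by omega)
    · exact cell_mem hw (by omega) (by omega)
  · rw [unpat_eq (by omega) (by omega) (by omega) (by omega),
      unpat_eq (by omega) (by omega) (by omega) (by omega)]
    have := (hv (x + o).toNat (by omega) (y + o).toNat (by omega)).1 (by omega)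
    rw [this]
    congr 2
    omega
  · rw [unpat_eq (by omega) (by omega) (by omega) (by omega),
      unpat_eq (by omega) (by omega) (by omega) (by omega)]
    have := (hv (x + o).toNat (by omega) (y + o).toNat (by omega)).2 (by omega)
    rw [this]
    congr 2
    omega

/-- a compactness principle -/
theorem exists_tiling {S : List Tile} {C : Set (ℤ × ℤ → Tile)} (hC : IsClosed C)
    (h : ∀ n, (ParT S n ∩ C).Nonempty) : ∃ T ∈ C, IsTiling S T := by
  obtain ⟨T, hT⟩ := IsCompact.nonempty_iInter_of_directed_nonempty_isCompact_isClosed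
    (fun n : ℕ => ParT S n ∩ C)
    (by
      intro n n'
      exact ⟨max n n', Set.inter_subset_inter_left _ (ParT_anti S (le_max_left _ _)),
        Set.inter_subset_inter_left _ (ParT_anti S (le_max_right _ _))⟩)
    h
    (fun n => (isCompact_pi_mem S).of_isClosed_subset ((isClosed_ParT S n).inter hC)
      fun T hT => hT.1.1)
    (fun n => (isClosed_ParT S n).inter hC)
  rw [Set.mem_iInter] at hT
  exact ⟨T, (hT 0).2, isTiling_of_ParT fun n => (hT n).1⟩

/-- Completeness. -/
theorem exists_Q {S : List Tile} (h : ∀ T, IsTiling S T → Periodic T) : ∃ k n, Q S k n := by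
  obtain ⟨k, hk⟩ := unif_of_periodic (X := {T : ℤ × ℤ → Tile | IsTiling S T})
    (isCompact_isTiling S) (fun T hT g => shift_isTiling hT g) (fun T hT => by
      obtain ⟨v, hv, hp⟩ := h T hT
      exact ⟨v, hv, hp⟩)
  refine ⟨k, ?_⟩
  by_contra hno
  push Not at hno
  obtain ⟨T, hT, hT'⟩ := exists_tiling (S := S) (isClosed_bad (A := Tile) k) (fun n => by
    have hn := hno n
    unfold Q at hn
    push Not at hn
    obtain ⟨w, hw, hv, hg⟩ := hn
    have hoff : off k n = n + Rk k + k := rfl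
    refine ⟨_, unpat_mem (n := n) (by omega) hw hv, ?_⟩
    rintro ⟨v, ⟨hv0, hv1, hv2⟩, hv3⟩
    apply hg
    rw [abs_le] at hv1 hv2
    obtain ⟨a, ha⟩ := Int.eq_ofNat_of_zero_le (by omega : 0 ≤ v.1 + k)
    obtain ⟨b, hb⟩ := Int.eq_ofNat_of_zero_le (by omega : 0 ≤ v.2 + k)
    refine ⟨a, by omega, b, by omega, ?_, ?_⟩
    · rintro ⟨h1, h2⟩
      exact hv0 (Prod.ext (by simp only [Prod.fst_zero]; omega)
        (by simp only [Prod.snd_zero]; omega))
    · intro i hi j hj
      have h1 := hv3 ((i : ℤ) - Rk k, (j : ℤ) - Rk k) (by rw [abs_le]; constructor <;> simp only <;> omega)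
        (by rw [abs_le]; constructor <;> simp only <;> omega)
      have e1 : (0 : ℤ × ℤ) + ((i : ℤ) - Rk k, (j : ℤ) - Rk k) + v =
          ((i : ℤ) - Rk k + v.1, (j : ℤ) - Rk k + v.2) := by
        ext <;> simp
      have e2 : (0 : ℤ × ℤ) + ((i : ℤ) - Rk k, (j : ℤ) - Rk k) =
          ((i : ℤ) - Rk k, (j : ℤ) - Rk k) := by
        ext <;> simp
      rw [e1, e2, unpat_eq (by omega) (by omega) (by omega) (by omega),
        unpat_eq (by omega) (by omega) (by omega) (by omega)] at h1
      convert h1 using 2 <;> omega)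
  obtain ⟨v, hv, hper⟩ := hk T hT'
  exact hT ⟨v, hv, fun q _ _ => hper _⟩

theorem allPeriodic_iff (S : List Tile) :
    (∀ T, IsTiling S T → Periodic T) ↔ ∃ k n, Q S k n :=
  ⟨exists_Q, fun ⟨_, _, h⟩ _ hT => periodic_of_Q h hT⟩

theorem noTiling_iff (S : List Tile) : (¬ ∃ T, IsTiling S T) ↔ ∃ n, NoPat S n := by
  constructor
  · intro h
    by_contra hno
    push Not at hno
    obtain ⟨T, -, hT⟩ := exists_tiling (S := S) isClosed_univ (fun n => by
      have hn := hno n
      unfold NoPat at hn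
      push Not at hn
      obtain ⟨w, hw, hv⟩ := hn
      exact ⟨_, unpat_mem (n := n) le_rfl hw hv, trivial⟩)
    exact h ⟨T, hT⟩
  · rintro ⟨n, hn⟩ ⟨T, hT⟩
    exact hn _ (pat_mem hT.1 0 n) (valid_pat hT 0 n)

end Pool.Agent.N575.PT
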