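import Mathlib.Computability.Halting

/-!
# Wang tiles, tilings of the plane, and arithmetical sets: definitions
-/

namespace Pool.Agent.N575.PT

/-- A Wang tile: the colours of its left, right, bottom and top edge. -/
abbrev Tile : Type := ℕ × ℕ × ℕ × ℕ

def left (t : Tile) : ℕ := t.1
def right (t : Tile) : ℕ := t.2.1
def bottom (t : Tile) : ℕ := t.2.2.1
def top (t : Tile) : ℕ := t.2.2.2

/-- `T` is a tiling of the plane by the prototile set (the set of members of) `S`. -/
def IsTiling (S : List Tile) (T : ℤ × ℤ → Tile) : Prop :=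
  (∀ p, T p ∈ S) ∧ (∀ x y : ℤ, right (T (x, y)) = left (T (x + 1, y))) ∧
    ∀ x y : ℤ, top (T (x, y)) = bottom (T (x, y + 1))

/-- `T` has a nonzero period. -/
def Periodic (T : ℤ × ℤ → Tile) : Prop := ∃ v : ℤ × ℤ, v ≠ 0 ∧ ∀ p, T (p + v) = T p

/-- `S` admits a tiling, and every tiling by `S` is periodic. -/
def PTile (S : List Tile) : Prop :=
  (∃ T, IsTiling S T) ∧ ∀ T, IsTiling S T → Periodic T

/-- The sets `Σ⁰ₙ`: the computable sets for `n = 0`, and the projections of the complements of the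
`Σ⁰ₙ` sets for `n + 1`. -/
def IsSigma : ℕ → (ℕ → Prop) → Prop
  | 0, A => ComputablePred A
  | n + 1, A => ∃ B : ℕ → Prop, IsSigma n B ∧ ∀ x, A x ↔ ∃ y, ¬ B (Nat.pair x y)

end Pool.Agent.N575.PT
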