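import Mathlib

/-!
# Locally periodic configurations of the plane are periodic

If every window of a configuration has a period in a fixed finite set of vectors, and the windows
are large with respect to this set, then the configuration is periodic.
-/

namespace Pool.Agent.N575.PT

/-- The `ℓ¹` norm. -/
def nm (v : ℤ × ℤ) : ℤ := |v.1| + |v.2|

theorem nm_nonneg (v : ℤ × ℤ) : 0 ≤ nm v := by unfold nm; positivity

theorem nm_add (v w : ℤ × ℤ) : nm (v + w) ≤ nm v + nm w := by
  unfold nm
  have h1 := abs_add_le v.1 w.1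
  have h2 := abs_add_le v.2 w.2
  simp only [Prod.fst_add, Prod.snd_add]
  linarith

theorem nm_neg (v : ℤ × ℤ) : nm (-v) = nm v := by
  unfold nm; simp

theorem nm_sub (v w : ℤ × ℤ) : nm (v - w) ≤ nm v + nm w := by
  rw [sub_eq_add_neg, ← nm_neg w]; exact nm_add _ _

theorem nm_smul (k : ℤ) (v : ℤ × ℤ) : nm (k • v) = |k| * nm v := by
  unfold nm
  simp only [Prod.smul_fst, Prod.smul_snd, smul_eq_mul, abs_mul]
  ring

theorem nm_zero : nm 0 = 0 := by simp [nm]

/-- The determinant of two vectors. -/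
def dt (v w : ℤ × ℤ) : ℤ := v.1 * w.2 - v.2 * w.1

theorem dt_self (v : ℤ × ℤ) : dt v v = 0 := by unfold dt; ring

theorem dt_comm (v w : ℤ × ℤ) : dt v w = - dt w v := by unfold dt; ring

theorem dt_smul_left (k : ℤ) (v w : ℤ × ℤ) : dt (k • v) w = k * dt v w := by
  unfold dt; simp only [Prod.smul_fst, Prod.smul_snd, smul_eq_mul]; ring

theorem dt_smul_right (k : ℤ) (v w : ℤ × ℤ) : dt v (k • w) = k * dt v w := by
  unfold dt; simp only [Prod.smul_fst, Prod.smul_snd, smul_eq_mul]; ring

theorem cramer (v w u : ℤ × ℤ) : dt v w • u = dt u w • v + dt v u • w := by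
  unfold dt
  ext
  · simp only [Prod.smul_fst, Prod.fst_add, smul_eq_mul]; ring
  · simp only [Prod.smul_snd, Prod.snd_add, smul_eq_mul]; ring

theorem abs_dt_le (v w : ℤ × ℤ) : |dt v w| ≤ nm v * nm w := by
  unfold dt nm
  have h : |v.1 * w.2 - v.2 * w.1| ≤ |v.1| * |w.2| + |v.2| * |w.1| := by
    calc |v.1 * w.2 - v.2 * w.1| ≤ |v.1 * w.2| + |v.2 * w.1| := abs_sub _ _
      _ = _ := by rw [abs_mul, abs_mul]
  have h1 := abs_nonneg v.1
  have h2 := abs_nonneg v.2
  have h3 := abs_nonneg w.1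
  have h4 := abs_nonneg w.2
  nlinarith [mul_nonneg h1 h3, mul_nonneg h2 h4]

/-- parallelism is transitive through nonzero vectors -/
theorem par_trans {u v w : ℤ × ℤ} (hv : v ≠ 0) (h1 : dt u v = 0) (h2 : dt v w = 0) :
    dt u w = 0 := by
  unfold dt at *
  by_cases hv1 : v.1 = 0
  · have hv2 : v.2 ≠ 0 := fun h => hv (Prod.ext hv1 h)
    have e1 : u.1 = 0 := by
      have : u.1 * v.2 = 0 := by rw [hv1] at h1; linarith
      rcases mul_eq_zero.1 this with h | h
      · exact h
      · exact absurd h hv2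
    have e2 : w.1 = 0 := by
      have : v.2 * w.1 = 0 := by rw [hv1] at h2; linarith
      rcases mul_eq_zero.1 this with h | h
      · exact absurd h hv2
      · exact h
    rw [e1, e2]; ring
  · have : v.1 * (u.1 * w.2 - u.2 * w.1) = 0 := by
      linear_combination (u.1) * h2 + w.1 * h1
    rcases mul_eq_zero.1 this with h | h
    · exact absurd h hv1
    · exact h

variable {A : Type*}

/-- `v` is a period of `T` in the window of radius `R` around `x`. -/
def LP (T : ℤ × ℤ → A) (x v : ℤ × ℤ) (R : ℤ) : Prop :=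
  ∀ q : ℤ × ℤ, nm q ≤ R → T (x + q + v) = T (x + q)

theorem LP.mono {T : ℤ × ℤ → A} {x v : ℤ × ℤ} {R R' : ℤ} (h : LP T x v R) (hR : R' ≤ R) :
    LP T x v R' := fun q hq => h q (hq.trans hR)

theorem LP.shift {T : ℤ × ℤ → A} {x y v : ℤ × ℤ} {R : ℤ} (h : LP T x v R) :
    LP T y v (R - nm (y - x)) := by
  intro q hq
  have := h (y - x + q) ((nm_add _ _).trans (by linarith))
  have e : x + (y - x + q) = y + q := by abel
  rw [e] at this
  exact this

theorem LP.neg {T : ℤ × ℤ → A} {x v : ℤ × ℤ} {R : ℤ} (h : LP T x v R) :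
    LP T x (-v) (R - nm v) := by
  intro q hq
  have := h (q - v) ((nm_sub _ _).trans (by linarith))
  have e1 : x + (q - v) + v = x + q := by abel
  have e2 : x + (q - v) = x + q + -v := by abel
  rw [e1, e2] at this
  exact this.symm

theorem LP.nsmul {T : ℤ × ℤ → A} {x v : ℤ × ℤ} {R : ℤ} (h : LP T x v R) (k : ℕ) :
    LP T x ((k : ℤ) • v) (R - k * nm v) := by
  induction k with
  | zero => intro q _; simp
  | succ k ih =>
    intro q hq
    have hn := nm_nonneg v
    push_cast at hq
    have h1 := ih q (by linarith)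
    have hb : nm (q + (k : ℤ) • v) ≤ R := by
      refine (nm_add _ _).trans ?_
      rw [nm_smul, abs_of_nonneg (by positivity : (0 : ℤ) ≤ k)]
      linarith
    have h2 := h (q + (k : ℤ) • v) hb
    have e1 : x + (q + (k : ℤ) • v) + v = x + q + ((k + 1 : ℕ) : ℤ) • v := by
      push_cast; rw [add_smul, one_smul]; abel
    have e2 : x + (q + (k : ℤ) • v) = x + q + (k : ℤ) • v := by abel
    rw [e1, e2, h1] at h2
    exact h2

theorem LP.zsmul {T : ℤ × ℤ → A} {x v : ℤ × ℤ} {R : ℤ} (h : LP T x v R) (k : ℤ) :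
    LP T x (k • v) (R - |k| * nm v) := by
  rcases le_or_gt 0 k with hk | hk
  · obtain ⟨n, rfl⟩ := Int.eq_ofNat_of_zero_le hk
    rw [abs_of_nonneg hk]
    exact h.nsmul n
  · obtain ⟨n, hn⟩ := Int.eq_ofNat_of_zero_le (by omega : 0 ≤ -k)
    have hk' : k = -(n : ℤ) := by omega
    have h1 := (h.nsmul n).neg
    rw [nm_smul, abs_of_nonneg (by positivity : (0 : ℤ) ≤ n)] at h1
    have habs : |k| = n := by rw [hk', abs_neg, abs_of_nonneg (by positivity)]
    rw [habs, hk', neg_smul]
    -- better radius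
    intro q hq
    have hn := nm_nonneg v
    have hb : nm (q - (n : ℤ) • v) ≤ R := by
      refine (nm_sub _ _).trans ?_
      rw [nm_smul, abs_of_nonneg (by positivity : (0 : ℤ) ≤ n)]
      linarith
    -- walk back step by step
    have key : ∀ m : ℕ, m ≤ n → T (x + q + -((m : ℤ) • v)) = T (x + q) := by
      intro m
      induction m with
      | zero => intro _; simp
      | succ m ih =>
        intro hm
        have h2 := ih (by omega)
        have hb2 : nm (q - ((m + 1 : ℕ) : ℤ) • v) ≤ R := by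
          refine (nm_sub _ _).trans ?_
          rw [nm_smul, abs_of_nonneg (by positivity : (0 : ℤ) ≤ ((m + 1 : ℕ) : ℤ))]
          have : ((m + 1 : ℕ) : ℤ) * nm v ≤ n * nm v := by
            apply mul_le_mul_of_nonneg_right _ hn
            exact_mod_cast hm
          linarith
        have h3 := h _ hb2
        have e1 : x + (q - ((m + 1 : ℕ) : ℤ) • v) + v = x + q + -((m : ℤ) • v) := by
          push_cast; rw [add_smul, one_smul]; abel
        have e2 : x + (q - ((m + 1 : ℕ) : ℤ) • v) = x + q + -(((m + 1 : ℕ) : ℤ) • v) := by abel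
        rw [e1, e2, h2] at h3
        exact h3.symm
    exact key n le_rfl

theorem LP.add {T : ℤ × ℤ → A} {x v w : ℤ × ℤ} {R R' : ℤ} (h : LP T x v R) (h' : LP T x w R')
    (hR : R ≤ R' - nm v) : LP T x (v + w) R := by
  intro q hq
  have h1 := h q hq
  have hb : nm (q + v) ≤ R' := (nm_add _ _).trans (by linarith)
  have h2 := h' _ hb
  have e1 : x + (q + v) + w = x + q + (v + w) := by abel
  have e2 : x + (q + v) = x + q + v := by abel
  rw [e1, e2, h1] at h2
  exact h2

/-- A point at which `V` is not a period. -/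
def Brk (T : ℤ × ℤ → A) (x V : ℤ × ℤ) : Prop := T (x + V) ≠ T x

theorem LP.not_brk {T : ℤ × ℤ → A} {x v : ℤ × ℤ} {R : ℤ} (h : LP T x v R) (hR : 0 ≤ R) :
    ¬ Brk T x v := by
  intro hb
  have := h 0 (by rw [nm_zero]; exact hR)
  rw [add_zero] at this
  exact hb this

/-- two lines of lattice points meet approximately -/
theorem lines_meet {a b : ℤ × ℤ} (hab : dt a b ≠ 0) (z : ℤ × ℤ) :
    ∃ t s : ℤ, nm (z - t • a - s • b) ≤ nm a + nm b := by
  refine ⟨dt z b / dt a b, dt a z / dt a b, ?_⟩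
  set D := dt a b with hD
  set r1 := dt z b % D with hr1
  set r2 := dt a z % D with hr2
  have e1 : D * (dt z b / D) + r1 = dt z b := Int.mul_ediv_add_emod _ _
  have e2 : D * (dt a z / D) + r2 = dt a z := Int.mul_ediv_add_emod _ _
  have h1 : 0 ≤ r1 := Int.emod_nonneg _ hab
  have h2 : r1 < |D| := Int.emod_lt_abs _ hab
  have h3 : 0 ≤ r2 := Int.emod_nonneg _ hab
  have h4 : r2 < |D| := Int.emod_lt_abs _ hab
  have key : D • (z - (dt z b / D) • a - (dt a z / D) • b) = r1 • a + r2 • b := by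
    rw [smul_sub, smul_sub, hD, cramer a b z, ← hD, smul_smul, smul_smul]
    have f1 : r1 = dt z b - D * (dt z b / D) := by linarith
    have f2 : r2 = dt a z - D * (dt a z / D) := by linarith
    rw [f1, f2, sub_smul, sub_smul]
    abel
  have hDpos : 0 < |D| := abs_pos.2 hab
  have h5 : |D| * nm (z - (dt z b / D) • a - (dt a z / D) • b) ≤ |D| * (nm a + nm b) := by
    rw [← nm_smul, key]
    refine (nm_add _ _).trans ?_
    rw [nm_smul, nm_smul, abs_of_nonneg h1, abs_of_nonneg h3]
    have ha := nm_nonneg a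
    have hb := nm_nonneg b
    nlinarith
  exact le_of_mul_le_mul_left h5 hDpos

/-- The main local-to-global step. The hypotheses on `N`: it is a common multiplier; `K` bounds the
norms of the vectors. -/
theorem local_global {T : ℤ × ℤ → A} {F : Set (ℤ × ℤ)} {N K R : ℤ}
    (hF0 : ∀ v ∈ F, v ≠ 0) (hK : ∀ v ∈ F, nm v ≤ K) (hN : 0 < N)
    (hpar : ∀ u ∈ F, ∀ v ∈ F, dt u v = 0 → ∃ k : ℤ, |k| ≤ N * K ∧ N • u = k • v)
    (hdiv : ∀ v ∈ F, ∀ w ∈ F, dt v w ≠ 0 → dt v w ∣ N)
    (hR : 10 * N * (K + 1) ^ 3 ≤ R)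
    (hT : ∀ x, ∃ v ∈ F, LP T x v R) :
    ∃ u ∈ F, ∀ x, T (x + N • u) = T x := by
  obtain ⟨v0, hv0, -⟩ := hT 0
  have hK0 : 0 ≤ K := (nm_nonneg v0).trans (hK v0 hv0)
  have hN1 : 1 ≤ N := hN
  have hRbig : 2 * (N * K) + 2 * (N * K ^ 3) + (N * K ^ 2) + 1 ≤ R := by
    have : (K + 1) ^ 3 = K ^ 3 + 3 * K ^ 2 + 3 * K + 1 := by ring
    have h3 : 0 ≤ K ^ 3 := by positivity
    have h2 : 0 ≤ K ^ 2 := by positivity
    have e1 : 0 ≤ N * K := by positivity
    have e2 : 0 ≤ N * K ^ 2 := by positivity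
    have e3 : 0 ≤ N * K ^ 3 := by positivity
    nlinarith
  have p1 : 0 ≤ N * K := by positivity
  have p2 : 0 ≤ N * K ^ 2 := by positivity
  have p3 : 0 ≤ N * K ^ 3 := by positivity
  -- norms
  have hnV : ∀ u ∈ F, nm (N • u) ≤ N * K := by
    intro u hu
    rw [nm_smul, abs_of_pos hN]
    exact mul_le_mul_of_nonneg_left (hK u hu) hN.le
  -- (1) a parallel local period makes `N • u` a local period
  have A1 : ∀ u ∈ F, ∀ v ∈ F, ∀ x, dt u v = 0 → LP T x v R → LP T x (N • u) (R - N * K ^ 2) := by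
    intro u hu v hv x huv h
    obtain ⟨k, hk, hk'⟩ := hpar u hu v hv huv
    rw [hk']
    refine (h.zsmul k).mono ?_
    have h1 : |k| * nm v ≤ (N * K) * K := by
      apply mul_le_mul hk (hK v hv) (nm_nonneg v) (by positivity)
    nlinarith
  -- (2) two transversal local periods make `N • u` a local period
  have A2 : ∀ u ∈ F, ∀ v ∈ F, ∀ w ∈ F, ∀ x, dt v w ≠ 0 → LP T x v (R - 2 * (N * K)) →
      LP T x w (R - 2 * (N * K)) → ¬ Brk T x (N • u) := by
    intro u hu v hv w hw x hvw h h'
    obtain ⟨c, hc⟩ := hdiv v hv w hw hvw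
    have hc' : |c| ≤ N := by
      have : |dt v w| * |c| = N := by rw [← abs_mul, ← hc, abs_of_pos hN]
      have h1 : 1 ≤ |dt v w| := Int.one_le_abs hvw
      have h2 := abs_nonneg c
      nlinarith
    have e : N • u = (c * dt u w) • v + (c * dt v u) • w := by
      rw [hc, mul_comm, mul_smul, cramer v w u, smul_add, smul_smul, smul_smul]
    have b1 : |c * dt u w| * nm v ≤ N * K ^ 3 := by
      rw [abs_mul]
      have h1 := abs_dt_le u w
      have h2 : nm u * nm w ≤ K * K :=
        mul_le_mul (hK u hu) (hK w hw) (nm_nonneg w) hK0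
      have h3 : |c| * |dt u w| ≤ N * (K * K) :=
        mul_le_mul hc' (h1.trans h2) (abs_nonneg _) (by positivity)
      have h4 : |c| * |dt u w| * nm v ≤ N * (K * K) * K :=
        mul_le_mul h3 (hK v hv) (nm_nonneg v) (by positivity)
      calc _ ≤ N * (K * K) * K := h4
        _ = _ := by ring
    have b2 : |c * dt v u| * nm w ≤ N * K ^ 3 := by
      rw [abs_mul]
      have h1 := abs_dt_le v u
      have h2 : nm v * nm u ≤ K * K :=
        mul_le_mul (hK v hv) (hK u hu) (nm_nonneg u) hK0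
      have h3 : |c| * |dt v u| ≤ N * (K * K) :=
        mul_le_mul hc' (h1.trans h2) (abs_nonneg _) (by positivity)
      have h4 : |c| * |dt v u| * nm w ≤ N * (K * K) * K :=
        mul_le_mul h3 (hK w hw) (nm_nonneg w) (by positivity)
      calc _ ≤ N * (K * K) * K := h4
        _ = _ := by ring
    rw [e]
    have c1 := (h.zsmul (c * dt u w)).mono (R' := 0) (by linarith)
    have c2 := (h'.zsmul (c * dt v u)).mono (R' := N * K ^ 3) (by linarith)
    refine (c1.add c2 ?_).not_brk le_rfl
    rw [nm_smul]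
    linarith
  -- (3) lines of broken points
  have A3 : ∀ u ∈ F, ∀ x, Brk T x (N • u) → ∃ v ∈ F, dt u v ≠ 0 ∧
      ∀ t : ℤ, Brk T (x + t • (N • v)) (N • u) ∧
        ∀ w ∈ F, LP T (x + t • (N • v)) w R → dt v w = 0 := by
    intro u hu x hx
    obtain ⟨v, hv, hxv⟩ := hT x
    have huv : dt u v ≠ 0 := by
      intro h
      exact (A1 u hu v hv x h hxv).not_brk (by nlinarith [mul_nonneg hN.le (sq_nonneg K)]) hx
    refine ⟨v, hv, huv, ?_⟩
    -- one step, in both directions
    have step : ∀ (y : ℤ × ℤ) (ε : ℤ), |ε| = 1 → (Brk T y (N • u) ∧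
        ∀ w ∈ F, LP T y w R → dt v w = 0) → (Brk T (y + ε • (N • v)) (N • u) ∧
        ∀ w ∈ F, LP T (y + ε • (N • v)) w R → dt v w = 0) := by
      rintro y ε hε ⟨hy1, hy2⟩
      obtain ⟨w, hw, hyw⟩ := hT y
      have hvw := hy2 w hw hyw
      have hV := A1 v hv w hw y hvw hyw
      have hV' : LP T y (ε • (N • v)) (N * K) := by
        refine (hV.zsmul ε).mono ?_
        rw [hε]
        have := hnV v hv
        nlinarith [mul_nonneg hN.le hK0, mul_nonneg hN.le (pow_nonneg hK0 3)]
      have hbr : Brk T (y + ε • (N • v)) (N • u) := by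
        have h1 := hV' 0 (by rw [nm_zero]; positivity)
        have h2 := hV' (N • u) (hnV u hu)
        rw [add_zero] at h1
        intro h3
        apply hy1
        rw [← h2, ← h1]
        have e : y + N • u + ε • N • v = y + ε • N • v + N • u := by abel
        rw [e, h3]
      refine ⟨hbr, fun w' hw' hyw' => ?_⟩
      by_contra hne
      have hww : dt w w' ≠ 0 := by
        intro h0
        exact hne (par_trans (hF0 w hw) hvw h0)
      have hd : nm (y + ε • (N • v) - y) ≤ N * K := by
        have e : y + ε • (N • v) - y = ε • (N • v) := by abel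
        rw [e, nm_smul, hε, one_mul]
        exact hnV v hv
      refine A2 u hu w hw w' hw' (y + ε • (N • v)) hww ?_ ?_ hbr
      · exact (hyw.shift).mono (by nlinarith [mul_nonneg hN.le hK0])
      · exact hyw'.mono (by nlinarith [mul_nonneg hN.le hK0])
    have base : Brk T x (N • u) ∧ ∀ w ∈ F, LP T x w R → dt v w = 0 := by
      refine ⟨hx, fun w hw hxw => ?_⟩
      by_contra hne
      exact A2 u hu v hv w hw x hne (hxv.mono (by nlinarith [mul_nonneg hN.le hK0]))
        (hxw.mono (by nlinarith [mul_nonneg hN.le hK0])) hx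
    intro t
    induction t using Int.induction_on with
    | zero => simpa using base
    | succ i ih =>
      have := step _ 1 (by simp) ih
      have e : x + (i : ℤ) • (N • v) + (1 : ℤ) • (N • v) = x + ((i : ℤ) + 1) • (N • v) := by
        rw [add_smul]; abel
      rw [e] at this
      exact this
    | pred i ih =>
      have := step _ (-1) (by simp) ih
      have e : x + (-(i : ℤ)) • (N • v) + (-1 : ℤ) • (N • v) = x + (-(i : ℤ) - 1) • (N • v) := by
        rw [sub_smul]
        simp only [neg_smul, one_smul]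
        abel
      rw [e] at this
      exact this
  -- (4) conclusion
  by_contra hcon
  push Not at hcon
  obtain ⟨x, hx⟩ := hcon v0 hv0
  obtain ⟨v, hv, huv, hline⟩ := A3 v0 hv0 x hx
  obtain ⟨y, hy⟩ := hcon v hv
  obtain ⟨w, hw, hvw, hline'⟩ := A3 v hv y hy
  have hD : dt (N • v) (N • w) ≠ 0 := by
    rw [dt_smul_left, dt_smul_right]
    have := hN.ne'
    positivity
  obtain ⟨t, s, hts⟩ := lines_meet hD (y - x)
  obtain ⟨hb1, hp1⟩ := hline t
  obtain ⟨-, hp2⟩ := hline' (-s)
  set X := x + t • (N • v) with hX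
  set Y := y + (-s) • (N • w) with hY
  have hXY : nm (X - Y) ≤ 2 * (N * K) := by
    have e : X - Y = -(y - x - t • (N • v) - s • (N • w)) := by
      rw [hX, hY, neg_smul]; abel
    rw [e, nm_neg]
    have h1 := hnV v hv
    have h2 := hnV w hw
    linarith
  obtain ⟨v', hv', hXv'⟩ := hT X
  obtain ⟨w', hw', hYw'⟩ := hT Y
  have h1 := hp1 v' hv' hXv'
  have h2 := hp2 w' hw' hYw'
  have h3 : dt v' w' ≠ 0 := by
    intro h0
    apply hvw
    have h4 : dt v w' = 0 := par_trans (hF0 v' hv') h1 h0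
    have h5 : dt w' w = 0 := by rw [dt_comm]; rw [h2]; rfl
    exact par_trans (hF0 w' hw') h4 h5
  refine A2 v0 hv0 v' hv' w' hw' X h3 (hXv'.mono (by nlinarith [mul_nonneg hN.le hK0])) ?_ hb1
  exact (hYw'.shift (y := X)).mono (by linarith)

end Pool.Agent.N575.PT
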