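import Pool.Agent.N575.PT.Comp

/-!
# Computability of the finite conditions
-/

namespace Pool.Agent.N575.PT

open Primrec

variable {α : Type} [Primcodable α]

theorem pp_forall_lt {f : α → ℕ} {P : α → ℕ → Prop} (hf : Primrec f)
    (hP : PrimrecPred fun p : α × ℕ => P p.1 p.2) : PrimrecPred fun a => ∀ i < f a, P a i := by
  have h : PrimrecRel fun (i : ℕ) (a : α) => P a i := hP.comp (Primrec.snd.pair Primrec.fst)
  exact ((PrimrecRel.forall_mem_list h).comp (Primrec.list_range.comp hf) Primrec.id).of_eq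
    (by simp)

theorem pp_exists_lt {f : α → ℕ} {P : α → ℕ → Prop} (hf : Primrec f)
    (hP : PrimrecPred fun p : α × ℕ => P p.1 p.2) : PrimrecPred fun a => ∃ i < f a, P a i := by
  have h : PrimrecRel fun (i : ℕ) (a : α) => P a i := hP.comp (Primrec.snd.pair Primrec.fst)
  exact ((PrimrecRel.exists_mem_list h).comp (Primrec.list_range.comp hf) Primrec.id).of_eq
    (by simp)

theorem pp_imp {p q : α → Prop} (hp : PrimrecPred p) (hq : PrimrecPred q) :
    PrimrecPred fun a => p a → q a :=
  (hp.not.or hq).of_eq fun a => by tauto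

theorem pr_factorial : Primrec Nat.factorial := by
  have h : Primrec fun n : ℕ => (Nat.rec (1 : ℕ) (fun k ih => (k + 1) * ih) n : ℕ) :=
    Primrec.nat_rec₁ (f := fun k ih => (k + 1) * ih) 1
      (Primrec.nat_mul.comp (Primrec.succ.comp Primrec.fst) Primrec.snd)
  refine h.of_eq fun n => ?_
  induction n with
  | zero => rfl
  | succ n ih =>
    rw [Nat.factorial_succ, ← ih]

theorem pr_pow2 : Primrec fun n : ℕ => n ^ 2 :=
  (Primrec.nat_mul.comp Primrec.id Primrec.id).of_eq fun n => by simp [sq]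

theorem pr_pow3 : Primrec fun n : ℕ => n ^ 3 :=
  (Primrec.nat_mul.comp pr_pow2 Primrec.id).of_eq fun n => by simp [pow_succ]

theorem pr_Nk : Primrec Nk :=
  pr_factorial.comp (Primrec.nat_mul.comp (Primrec.const 2) pr_pow2)

theorem pr_Rk : Primrec Rk :=
  Primrec.nat_mul.comp (Primrec.nat_mul.comp (Primrec.const 10) pr_Nk)
    (pr_pow3.comp (Primrec.nat_add.comp (Primrec.nat_mul.comp (Primrec.const 2) Primrec.id)
      (Primrec.const 1)))

theorem pr_words : Primrec₂ words := by
  have h : Primrec₂ fun (S : List Tile) (k : ℕ) =>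
      (Nat.rec ([[]] : List (List Tile)) (fun _ W => W.flatMap fun w => S.map fun t => t :: w) k :
        List (List Tile)) := by
    refine Primrec.nat_rec (f := fun _ : List Tile => [[]])
      (g := fun (S : List Tile) (p : ℕ × List (List Tile)) =>
        p.2.flatMap fun w => S.map fun t => t :: w) (Primrec.const _) ?_
    refine Primrec.list_flatMap (Primrec.snd.comp Primrec.snd) ?_
    refine Primrec.list_map (Primrec.fst.comp Primrec.fst) ?_
    exact Primrec.list_cons.comp Primrec.snd (Primrec.snd.comp Primrec.fst)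
  refine h.of_eq fun S k => ?_
  induction k with
  | zero => rfl
  | succ k ih =>
    rw [words, ← ih]

theorem pr_cell {f : α → ℕ} {w : α → List Tile} {i j : α → ℕ} (hf : Primrec f) (hw : Primrec w)
    (hi : Primrec i) (hj : Primrec j) : Primrec fun a => cell (f a) (w a) (i a) (j a) :=
  (Primrec.list_getD (0, 0, 0, 0)).comp hw
    (Primrec.nat_add.comp (Primrec.nat_mul.comp hi hf) hj)

theorem pr_right : Primrec right := Primrec.fst.comp Primrec.snd
theorem pr_left : Primrec left := Primrec.fst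
theorem pr_bottom : Primrec bottom := Primrec.fst.comp (Primrec.snd.comp Primrec.snd)
theorem pr_top : Primrec top := Primrec.snd.comp (Primrec.snd.comp Primrec.snd)

theorem pp_valid {f : α → ℕ} {w : α → List Tile} (hf : Primrec f) (hw : Primrec w) :
    PrimrecPred fun a => Valid (f a) (w a) := by
  refine pp_forall_lt hf (pp_forall_lt (hf.comp Primrec.fst) ?_)
  have hF : Primrec fun p : (α × ℕ) × ℕ => f p.1.1 := hf.comp (Primrec.fst.comp Primrec.fst)
  have hW : Primrec fun p : (α × ℕ) × ℕ => w p.1.1 := hw.comp (Primrec.fst.comp Primrec.fst)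
  have hi : Primrec fun p : (α × ℕ) × ℕ => p.1.2 := Primrec.snd.comp Primrec.fst
  have hj : Primrec fun p : (α × ℕ) × ℕ => p.2 := Primrec.snd
  have hi1 : Primrec fun p : (α × ℕ) × ℕ => p.1.2 + 1 := Primrec.succ.comp hi
  have hj1 : Primrec fun p : (α × ℕ) × ℕ => p.2 + 1 := Primrec.succ.comp hj
  refine (pp_imp (Primrec.nat_lt.comp hi1 hF) ?_).and (pp_imp (Primrec.nat_lt.comp hj1 hF) ?_)
  · exact Primrec.eq.comp (pr_right.comp (pr_cell hF hW hi hj)) (pr_left.comp (pr_cell hF hW hi1 hj))
  · exact Primrec.eq.comp (pr_top.comp (pr_cell hF hW hi hj))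
      (pr_bottom.comp (pr_cell hF hW hi hj1))

theorem pr_addn {f g : α → ℕ} (hf : Primrec f) (hg : Primrec g) : Primrec fun a => f a + g a :=
  Primrec.nat_add.comp hf hg

theorem pr_muln {f g : α → ℕ} (hf : Primrec f) (hg : Primrec g) : Primrec fun a => f a * g a :=
  Primrec.nat_mul.comp hf hg

theorem pr_dbl {f : α → ℕ} (hf : Primrec f) : Primrec fun a => 2 * f a + 1 :=
  Primrec.succ.comp (Primrec.nat_mul.comp (Primrec.const 2) hf)

theorem pp_goodWin {k n m : α → ℕ} {w : α → List Tile} (hk : Primrec k) (hn : Primrec n)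
    (hm : Primrec m) (hw : Primrec w) :
    PrimrecPred fun a => GoodWin (k a) (n a) (m a) (w a) := by
  refine pp_exists_lt (pr_dbl hk) (pp_exists_lt ((pr_dbl hk).comp Primrec.fst) ?_)
  have hk2 : Primrec fun p : (α × ℕ) × ℕ => k p.1.1 := hk.comp (Primrec.fst.comp Primrec.fst)
  refine PrimrecPred.and (PrimrecPred.not (PrimrecPred.and ?_ ?_)) ?_
  · exact Primrec.eq.comp (Primrec.snd.comp Primrec.fst) hk2
  · exact Primrec.eq.comp Primrec.snd hk2
  · have hR : Primrec fun p : (α × ℕ) × ℕ => 2 * Rk (k p.1.1) + 1 := pr_dbl (pr_Rk.comp hk2)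
    refine pp_forall_lt hR (pp_forall_lt (hR.comp Primrec.fst) ?_)
    have q1 : Primrec fun p : (((α × ℕ) × ℕ) × ℕ) × ℕ => p.1.1 := Primrec.fst.comp Primrec.fst
    have hk4 : Primrec fun p : (((α × ℕ) × ℕ) × ℕ) × ℕ => k p.1.1.1.1 := hk2.comp q1
    have q0 : Primrec fun p : (((α × ℕ) × ℕ) × ℕ) × ℕ => p.1.1.1.1 :=
      Primrec.fst.comp (Primrec.fst.comp q1)
    have hn4 := hn.comp q0
    have hm4 := hm.comp q0
    have hw4 := hw.comp q0
    have ha : Primrec fun p : (((α × ℕ) × ℕ) × ℕ) × ℕ => p.1.1.1.2 :=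
      Primrec.snd.comp (Primrec.fst.comp q1)
    have hb : Primrec fun p : (((α × ℕ) × ℕ) × ℕ) × ℕ => p.1.1.2 := Primrec.snd.comp q1
    have hi : Primrec fun p : (((α × ℕ) × ℕ) × ℕ) × ℕ => p.1.2 :=
      Primrec.snd.comp Primrec.fst
    have hj : Primrec fun p : (((α × ℕ) × ℕ) × ℕ) × ℕ => p.2 := Primrec.snd
    exact Primrec.eq.comp
      (pr_cell hm4 hw4 (pr_addn (pr_addn hn4 hi) ha) (pr_addn (pr_addn hn4 hj) hb))
      (pr_cell hm4 hw4 (pr_addn (pr_addn hn4 hi) hk4) (pr_addn (pr_addn hn4 hj) hk4))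

theorem pp_forall_mem {β : Type} [Primcodable β] {L : α → List β} {P : α → β → Prop}
    (hL : Primrec L) (hP : PrimrecPred fun p : α × β => P p.1 p.2) :
    PrimrecPred fun a => ∀ b ∈ L a, P a b := by
  have h : PrimrecRel fun (b : β) (a : α) => P a b := hP.comp (Primrec.snd.pair Primrec.fst)
  exact (PrimrecRel.forall_mem_list h).comp hL Primrec.id

theorem pr_off {k n : α → ℕ} (hk : Primrec k) (hn : Primrec n) :
    Primrec fun a => off (k a) (n a) :=
  pr_addn (pr_addn hn (pr_Rk.comp hk)) hk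

theorem pp_Q {S : α → List Tile} {k n : α → ℕ} (hS : Primrec S) (hk : Primrec k)
    (hn : Primrec n) : PrimrecPred fun a => Q (S a) (k a) (n a) := by
  have ho := pr_dbl (pr_off hk hn)
  refine pp_forall_mem (pr_words.comp hS (pr_muln ho ho)) (pp_imp ?_ ?_)
  · exact pp_valid (ho.comp Primrec.fst) Primrec.snd
  · exact pp_goodWin (hk.comp Primrec.fst) (hn.comp Primrec.fst) (ho.comp Primrec.fst) Primrec.snd

theorem pp_noPat {S : α → List Tile} {n : α → ℕ} (hS : Primrec S)
    (hn : Primrec n) : PrimrecPred fun a => NoPat (S a) (n a) := by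
  have ho := pr_dbl hn
  refine pp_forall_mem (pr_words.comp hS (pr_muln ho ho)) ?_
  exact (pp_valid (ho.comp Primrec.fst) Primrec.snd).not

theorem computablePred_of_primrecPred {p : α → Prop} (h : PrimrecPred p) : ComputablePred p := by
  obtain ⟨i, h⟩ := h
  exact ⟨i, h.to_comp⟩

/-- projections of primitive recursive predicates are recursively enumerable -/
theorem re_exists {P : α → ℕ → Prop} (hP : PrimrecPred fun p : α × ℕ => P p.1 p.2) :
    REPred fun a => ∃ n, P a n := by
  obtain ⟨i, hP⟩ := hP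
  let f : α → ℕ →. Bool := fun a n => Part.some (@decide (P a n) (i (a, n)))
  have h : Partrec fun a : α => Nat.rfind (f a) := Partrec.rfind hP.to_comp.partrec
  refine (h.dom_re).of_eq fun a => ?_
  have : ∀ a n, Decidable (P a n) := fun a n => i (a, n)
  refine Nat.rfind_dom.trans ?_
  constructor
  · rintro ⟨n, hn, -⟩
    have hn' := Part.mem_some_iff.1 hn
    exact ⟨n, @of_decide_eq_true _ (i (a, n)) hn'.symm⟩
  · rintro ⟨n, hn⟩
    refine ⟨n, Part.mem_some_iff.2 ?_, fun _ => trivial⟩
    exact (@decide_eq_true _ (i (a, n)) hn).symm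

theorem re_allPeriodic : REPred fun S : List Tile => ∀ T, IsTiling S T → Periodic T := by
  have h : REPred fun S : List Tile => ∃ n : ℕ, Q S n.unpair.1 n.unpair.2 :=
    re_exists (pp_Q Primrec.fst ((Primrec.fst.comp Primrec.unpair).comp Primrec.snd)
      ((Primrec.snd.comp Primrec.unpair).comp Primrec.snd))
  refine h.of_eq fun S => ?_
  rw [allPeriodic_iff]
  constructor
  · rintro ⟨n, hn⟩; exact ⟨_, _, hn⟩
  · rintro ⟨k, n, hn⟩
    refine ⟨Nat.pair k n, ?_⟩
    rw [Nat.unpair_pair]; exact hn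

theorem re_noTiling : REPred fun S : List Tile => ¬ ∃ T, IsTiling S T :=
  (re_exists (pp_noPat Primrec.fst Primrec.snd)).of_eq fun S => (noTiling_iff S).symm

/-- The set of codes of the prototile sets with a given property. -/
def Codes (P : List Tile → Prop) (k : ℕ) : Prop := ∃ S, Encodable.encode S = k ∧ P S

theorem sigma2 : IsSigma 2 (fun k => ∃ S : List Tile, Encodable.encode S = k ∧ PTile S) := by
  classical
  -- the matrix: `z = ((k, y), w)`
  let D : ℕ → List Tile := Denumerable.ofNat (List Tile)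
  let C : ℕ → Prop := fun z =>
    Q (D z.unpair.1.unpair.1) z.unpair.1.unpair.2.unpair.1 z.unpair.1.unpair.2.unpair.2 ∧
      ¬ NoPat (D z.unpair.1.unpair.1) z.unpair.2
  have hC : PrimrecPred C := by
    have h1 : Primrec fun z : ℕ => z.unpair.1.unpair.1 :=
      Primrec.fst.comp (Primrec.unpair.comp (Primrec.fst.comp Primrec.unpair))
    have h2 : Primrec fun z : ℕ => z.unpair.1.unpair.2 :=
      Primrec.snd.comp (Primrec.unpair.comp (Primrec.fst.comp Primrec.unpair))
    have h3 : Primrec fun z : ℕ => z.unpair.1.unpair.2.unpair.1 :=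
      Primrec.fst.comp (Primrec.unpair.comp h2)
    have h4 : Primrec fun z : ℕ => z.unpair.1.unpair.2.unpair.2 :=
      Primrec.snd.comp (Primrec.unpair.comp h2)
    have h5 : Primrec fun z : ℕ => z.unpair.2 := Primrec.snd.comp Primrec.unpair
    have hS : Primrec fun z : ℕ => D z.unpair.1.unpair.1 := (Primrec.ofNat (List Tile)).comp h1
    exact (pp_Q hS h3 h4).and (pp_noPat hS h5).not
  refine ⟨fun z => ∃ w, ¬ C (Nat.pair z w), ⟨C, computablePred_of_primrecPred hC, fun x => Iff.rfl⟩,
    fun x => ?_⟩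
  simp only [not_exists, not_not]
  have hx : (∃ S : List Tile, Encodable.encode S = x ∧ PTile S) ↔ PTile (D x) := by
    constructor
    · rintro ⟨S, rfl, h⟩
      have : D (Encodable.encode S) = S := Denumerable.ofNat_encode S
      rw [this]; exact h
    · intro h
      exact ⟨D x, Denumerable.encode_ofNat x, h⟩
  rw [hx]
  constructor
  · rintro ⟨hT, hall⟩
    obtain ⟨k, n, hQ⟩ := exists_Q hall
    refine ⟨Nat.pair k n, fun w => ⟨?_, ?_⟩⟩
    · simpa using hQ
    · intro hno
      simp only [Nat.unpair_pair] at hno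
      exact (noTiling_iff _).2 ⟨w, hno⟩ hT
  · rintro ⟨y, hy⟩
    obtain ⟨hQ, -⟩ := hy 0
    simp only [Nat.unpair_pair] at hQ
    refine ⟨?_, fun T hT => periodic_of_Q hQ hT⟩
    by_contra hno
    obtain ⟨n, hn⟩ := (noTiling_iff _).1 hno
    obtain ⟨-, hn'⟩ := hy n
    simp only [Nat.unpair_pair] at hn'
    exact hn' hn

end Pool.Agent.N575.PT
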